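import Mathlib.Combinatorics.SimpleGraph.Clique
import Mathlib.Combinatorics.SimpleGraph.Connectivity.Connected
import Mathlib.Order.Zorn
import Mathlib.Order.Preorder.Finite
import Mathlib.SetTheory.Cardinal.NatCard

/-!
# Clique graphs and triangular double covers

`cliqueGraph G` is the clique graph of `G`: its vertices are the maximal cliques of `G`, and two
different maximal cliques are adjacent when they share a vertex.  A triangular covering map induces
a triangular covering map of the clique graphs with the same number of sheets; hence the iterated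
clique graphs of a graph with a connected triangular double cover never become a point.
-/

set_option autoImplicit false

namespace Pool.Agent.Q291.Clq

variable {V W : Type}

/-- The clique graph of `G`: vertices are the maximal cliques of `G`, two distinct ones being
adjacent iff they share a vertex of `G`. -/
def cliqueGraph (G : SimpleGraph V) : SimpleGraph {s : Set V // Maximal G.IsClique s} where
  Adj s t := s ≠ t ∧ (s.1 ∩ t.1).Nonempty
  symm := ⟨fun s t h => ⟨h.1.symm, by rw [Set.inter_comm]; exact h.2⟩⟩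
  loopless := ⟨fun s h => h.1 rfl⟩

/-- One step of the clique operator, on graphs bundled with their vertex type. -/
def K (X : Σ V : Type, SimpleGraph V) : Σ V : Type, SimpleGraph V :=
  ⟨{s : Set X.1 // Maximal X.2.IsClique s}, cliqueGraph X.2⟩

/-- `p` is a triangular covering map from `H` onto `G` all of whose fibres have at least two
elements. -/
structure TriCover (H : SimpleGraph W) (G : SimpleGraph V) (p : W → V) : Prop where
  adj : ∀ x y, H.Adj x y → G.Adj (p x) (p y)
  lift : ∀ x v, G.Adj (p x) v → ∃ y, H.Adj x y ∧ p y = v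
  inj : ∀ x y z, H.Adj x y → H.Adj x z → p y = p z → y = z
  tri : ∀ x y z, H.Adj x y → H.Adj x z → G.Adj (p y) (p z) → H.Adj y z
  two : ∀ v, ∃ x y, x ≠ y ∧ p x = v ∧ p y = v

namespace TriCover

variable {H : SimpleGraph W} {G : SimpleGraph V} {p : W → V}

lemma ne_of_adj (h : TriCover H G p) {x y : W} (hxy : H.Adj x y) : p x ≠ p y :=
  (h.adj x y hxy).ne

lemma image_clique (h : TriCover H G p) {s : Set W} (hs : H.IsClique s) :
    G.IsClique (p '' s) := by
  rintro _ ⟨x, hx, rfl⟩ _ ⟨y, hy, rfl⟩ hne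
  exact h.adj x y (hs hx hy (fun e => hne (by rw [e])))

lemma nonempty_of_maximal [Nonempty W] {s : Set W} (hs : Maximal H.IsClique s) : s.Nonempty := by
  by_contra hne
  rw [Set.not_nonempty_iff_eq_empty] at hne
  obtain ⟨x⟩ := (inferInstance : Nonempty W)
  have h1 : H.IsClique ({x} : Set W) := by simp
  have h2 := hs.2 h1 (by rw [hne]; exact Set.empty_subset _)
  have : x ∈ s := h2 rfl
  rw [hne] at this
  exact this

lemma image_maximal [Nonempty W] (h : TriCover H G p) {s : Set W} (hs : Maximal H.IsClique s) :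
    Maximal G.IsClique (p '' s) := by
  refine ⟨h.image_clique hs.1, fun T hT hsT => ?_⟩
  obtain ⟨x, hx⟩ := nonempty_of_maximal hs
  intro t ht
  by_cases htx : t = p x
  · exact ⟨x, hx, htx.symm⟩
  have hadj : G.Adj (p x) t := hT (hsT ⟨x, hx, rfl⟩) ht (Ne.symm htx)
  obtain ⟨y, hxy, rfl⟩ := h.lift x t hadj
  refine ⟨y, ?_, rfl⟩
  have hcl : H.IsClique (insert y s) := by
    rw [SimpleGraph.isClique_insert]
    refine ⟨hs.1, fun z hz hyz => ?_⟩
    by_cases hzx : z = x
    · subst hzx; exact hxy.symm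
    have hxz : H.Adj x z := hs.1 hx hz (Ne.symm hzx)
    by_cases he : p y = p z
    · exact absurd (h.inj x y z hxy hxz he) hyz
    · exact h.tri x y z hxy hxz (hT ht (hsT ⟨z, hz, rfl⟩) he)
  exact hs.2 hcl (Set.subset_insert _ _) (Set.mem_insert _ _)

/-- lifting a maximal clique through a given vertex -/
lemma exists_lift (h : TriCover H G p) {R : Set V} (hR : Maximal G.IsClique R) {x : W}
    (hx : p x ∈ R) : ∃ s : Set W, Maximal H.IsClique s ∧ x ∈ s ∧ p '' s = R := by
  set s : Set W := {y | (y = x ∨ H.Adj x y) ∧ p y ∈ R} with hsdef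
  have himg : p '' s = R := by
    apply Set.Subset.antisymm
    · rintro _ ⟨y, hy, rfl⟩
      exact hy.2
    · intro t ht
      by_cases htx : t = p x
      · exact ⟨x, ⟨Or.inl rfl, hx⟩, htx.symm⟩
      obtain ⟨y, hxy, rfl⟩ := h.lift x t (hR.1 hx ht (Ne.symm htx))
      exact ⟨y, ⟨Or.inr hxy, ht⟩, rfl⟩
  have hcl : H.IsClique s := by
    rintro y ⟨hy1, hy2⟩ z ⟨hz1, hz2⟩ hyz
    rcases hy1 with rfl | hy1
    · rcases hz1 with rfl | hz1
      · exact absurd rfl hyz
      · exact hz1
    · rcases hz1 with rfl | hz1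
      · exact hy1.symm
      · by_cases he : p y = p z
        · exact absurd (h.inj x y z hy1 hz1 he) hyz
        · exact h.tri x y z hy1 hz1 (hR.1 hy2 hz2 he)
  refine ⟨s, ⟨hcl, fun T hT hsT => ?_⟩, ⟨Or.inl rfl, hx⟩, himg⟩
  have hTR : p '' T ⊆ R := hR.2 (h.image_clique hT) (by
    show R ⊆ p '' T
    rw [← himg]
    exact Set.image_mono hsT)
  have hxT : x ∈ T := hsT ⟨Or.inl rfl, hx⟩
  intro t ht
  refine ⟨?_, hTR ⟨t, ht, rfl⟩⟩
  by_cases htx : t = x
  · exact Or.inl htx
  · exact Or.inr (hT hxT ht (Ne.symm htx))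

/-- two maximal cliques with the same image and a common vertex agree -/
lemma eq_of_image_eq (h : TriCover H G p) {s t : Set W} (hs : H.IsClique s) (ht : H.IsClique t)
    {x : W} (hxs : x ∈ s) (hxt : x ∈ t) (hst : p '' s = p '' t) : s = t := by
  have key : ∀ s t : Set W, H.IsClique s → H.IsClique t → x ∈ s → x ∈ t → p '' s = p '' t →
      s ⊆ t := by
    intro s t hs ht hxs hxt hst y hy
    by_cases hyx : y = x
    · rw [hyx]; exact hxt
    have hxy : H.Adj x y := hs hxs hy (Ne.symm hyx)
    have : p y ∈ p '' t := by rw [← hst]; exact ⟨y, hy, rfl⟩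
    obtain ⟨z, hz, hzy⟩ := this
    have hzx : z ≠ x := by
      rintro rfl
      exact h.ne_of_adj hxy hzy
    have hxz : H.Adj x z := ht hxt hz (Ne.symm hzx)
    rw [h.inj x y z hxy hxz hzy.symm]
    exact hz
  exact Set.Subset.antisymm (key s t hs ht hxs hxt hst) (key t s ht hs hxt hxs hst.symm)

/-- the map induced on maximal cliques -/
def map [Nonempty W] (h : TriCover H G p) (s : {s : Set W // Maximal H.IsClique s}) :
    {s : Set V // Maximal G.IsClique s} := ⟨p '' s.1, h.image_maximal s.2⟩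

theorem clique [Nonempty W] (h : TriCover H G p) :
    TriCover (cliqueGraph H) (cliqueGraph G) h.map where
  adj := by
    rintro s t ⟨hne, x, hxs, hxt⟩
    refine ⟨fun e => hne ?_, ⟨p x, ⟨x, hxs, rfl⟩, ⟨x, hxt, rfl⟩⟩⟩
    apply Subtype.ext
    exact h.eq_of_image_eq s.2.1 t.2.1 hxs hxt (congrArg Subtype.val e)
  lift := by
    rintro s R ⟨hne, v, ⟨x, hxs, rfl⟩, hvR⟩
    obtain ⟨t, ht, hxt, himg⟩ := h.exists_lift R.2 hvR
    have hmap : h.map ⟨t, ht⟩ = R := Subtype.ext himg
    refine ⟨⟨t, ht⟩, ⟨?_, x, hxs, hxt⟩, hmap⟩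
    rintro rfl
    exact hne hmap
  inj := by
    rintro s r₁ r₂ ⟨_, x, hxs, hx1⟩ ⟨_, y, hys, hy2⟩ he
    have he' : p '' r₁.1 = p '' r₂.1 := congrArg Subtype.val he
    apply Subtype.ext
    by_cases hxy : x = y
    · subst hxy
      exact h.eq_of_image_eq r₁.2.1 r₂.2.1 hx1 hy2 he'
    have hadj : H.Adj x y := s.2.1 hxs hys hxy
    have hpy : p y ∈ p '' r₁.1 := by rw [he']; exact ⟨y, hy2, rfl⟩
    obtain ⟨z, hz, hzy⟩ := hpy
    have hzx : z ≠ x := by
      rintro rfl
      exact h.ne_of_adj hadj hzy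
    have hxz : H.Adj x z := r₁.2.1 hx1 hz (Ne.symm hzx)
    have : z = y := h.inj x z y hxz hadj hzy
    subst this
    exact h.eq_of_image_eq r₁.2.1 r₂.2.1 hz hy2 he'
  tri := by
    rintro s r₁ r₂ ⟨_, x, hxs, hx1⟩ ⟨_, y, hys, hy2⟩ ⟨hne, u, ⟨a, ha, hau⟩, ⟨b, hb, hbu⟩⟩
    refine ⟨fun e => hne (by rw [e]), ?_⟩
    have hab : p a = p b := hau.trans hbu.symm
    by_cases hax : a = x
    · -- then `p x = p b`
      subst hax
      by_cases hay : a = y
      · exact ⟨a, ha, hay ▸ hy2⟩
      have h1 : H.Adj y a := s.2.1 hys hxs (Ne.symm hay)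
      by_cases hby : b = y
      · subst hby
        exact absurd hab.symm (h.ne_of_adj h1)
      have h2 : H.Adj y b := r₂.2.1 hy2 hb (Ne.symm hby)
      have : a = b := h.inj y a b h1 h2 hab
      exact ⟨a, ha, this ▸ hb⟩
    have hxa : H.Adj x a := r₁.2.1 hx1 ha (Ne.symm hax)
    by_cases hby : b = y
    · subst hby
      by_cases hxb : x = b
      · exact ⟨x, hx1, hxb ▸ hb⟩
      have h1 : H.Adj x b := s.2.1 hxs hys hxb
      have : a = b := h.inj x a b hxa h1 hab
      exact ⟨a, ha, this ▸ hb⟩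
    have hyb : H.Adj y b := r₂.2.1 hy2 hb (Ne.symm hby)
    by_cases hxy : x = y
    · subst hxy
      have : a = b := h.inj x a b hxa hyb hab
      exact ⟨a, ha, this ▸ hb⟩
    have hxy' : H.Adj x y := s.2.1 hxs hys hxy
    have h3 : G.Adj (p a) (p y) := by
      rw [hab]
      exact (h.adj y b hyb).symm
    have h4 : H.Adj a y := h.tri x a y hxa hxy' h3
    have : a = b := h.inj y a b h4.symm hyb hab
    exact ⟨a, ha, this ▸ hb⟩
  two := by
    intro R
    have hne : (R.1).Nonempty := by
      by_contra hne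
      rw [Set.not_nonempty_iff_eq_empty] at hne
      obtain ⟨w⟩ := (inferInstance : Nonempty W)
      have h1 : G.IsClique ({p w} : Set V) := by simp
      have h2 := R.2.2 h1 (by rw [hne]; exact Set.empty_subset _)
      have : p w ∈ R.1 := h2 rfl
      rw [hne] at this
      exact this
    obtain ⟨v, hv⟩ := hne
    obtain ⟨x, y, hxy, hx, hy⟩ := h.two v
    obtain ⟨s, hs, hxs, his⟩ := h.exists_lift R.2 (x := x) (by rw [hx]; exact hv)
    obtain ⟨t, ht, hyt, hit⟩ := h.exists_lift R.2 (x := y) (by rw [hy]; exact hv)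
    refine ⟨⟨s, hs⟩, ⟨t, ht⟩, ?_, Subtype.ext his, Subtype.ext hit⟩
    intro e
    have e' : s = t := congrArg Subtype.val e
    have hys : y ∈ s := by rw [e']; exact hyt
    exact h.ne_of_adj (hs.1 hxs hys hxy) (hx.trans hy.symm)

end TriCover

/-- In a finite graph each clique lies in a maximal clique. -/
lemma exists_maximal_clique [Finite V] (G : SimpleGraph V) {s : Set V} (hs : G.IsClique s) :
    ∃ t, s ⊆ t ∧ Maximal G.IsClique t := by
  obtain ⟨t, h1, h2⟩ := (Set.toFinite {t : Set V | G.IsClique t}).exists_le_maximal hs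
  exact ⟨t, h1, h2⟩

lemma cliqueGraph_preconnected [Finite V] [Nonempty V] {G : SimpleGraph V}
    (hG : G.Preconnected) : (cliqueGraph G).Preconnected := by
  have step : ∀ (Q R : {s : Set V // Maximal G.IsClique s}) (x : V), x ∈ Q.1 → x ∈ R.1 →
      (cliqueGraph G).Reachable Q R := by
    intro Q R x hQ hR
    by_cases h : Q = R
    · rw [h]
    · exact SimpleGraph.Adj.reachable (show (cliqueGraph G).Adj Q R from ⟨h, x, hQ, hR⟩)
  have key : ∀ (x y : V), G.Reachable x y → ∀ (Q R : {s : Set V // Maximal G.IsClique s}),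
      x ∈ Q.1 → y ∈ R.1 → (cliqueGraph G).Reachable Q R := by
    rintro x y ⟨w⟩
    induction w with
    | nil => exact fun Q R hQ hR => step Q R _ hQ hR
    | cons hadj w ih =>
      intro Q R hQ hR
      rename_i a b c
      have hcl : G.IsClique ({a, b} : Set V) := by
        rw [SimpleGraph.isClique_pair]
        exact fun _ => hadj
      obtain ⟨S, hS1, hS2⟩ := exists_maximal_clique G hcl
      exact (step Q ⟨S, hS2⟩ a hQ (hS1 (by simp))).trans
        (ih ⟨S, hS2⟩ R (hS1 (by simp)) hR)
  intro Q R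
  obtain ⟨x, hx⟩ := TriCover.nonempty_of_maximal Q.2
  obtain ⟨y, hy⟩ := TriCover.nonempty_of_maximal R.2
  exact key x y (hG x y) Q R hx hy

/-- A finite graph with a connected triangular cover of at least two sheets. -/
def Covered (X : Σ V : Type, SimpleGraph V) : Prop :=
  Finite X.1 ∧ Nonempty X.1 ∧ ∃ (W : Type) (H : SimpleGraph W) (p : W → X.1),
    Finite W ∧ Nonempty W ∧ H.Preconnected ∧ TriCover H X.2 p

lemma Covered.K {X : Σ V : Type, SimpleGraph V} (h : Covered X) : Covered (K X) := by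
  obtain ⟨h1, h2, W, H, p, h3, h4, h5, h6⟩ := h
  refine ⟨?_, ?_, {s : Set W // Maximal H.IsClique s}, cliqueGraph H, h6.map, ?_, ?_,
    cliqueGraph_preconnected h5, h6.clique⟩
  · show Finite {s : Set X.1 // Maximal X.2.IsClique s}
    infer_instance
  · obtain ⟨t, -, ht⟩ := exists_maximal_clique X.2 (s := ∅) (by simp)
    exact ⟨⟨t, ht⟩⟩
  · infer_instance
  · obtain ⟨t, -, ht⟩ := exists_maximal_clique H (s := ∅) (by simp)
    exact ⟨⟨t, ht⟩⟩

lemma Covered.two_le {X : Σ V : Type, SimpleGraph V} (h : Covered X) : 2 ≤ Nat.card X.1 := by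
  obtain ⟨h1, h2, W, H, p, h3, h4, h5, h6⟩ := h
  have hnt : Nontrivial X.1 := by
    by_contra hnt
    rw [not_nontrivial_iff_subsingleton] at hnt
    obtain ⟨v⟩ := h2
    obtain ⟨x, y, hxy, -, -⟩ := h6.two v
    obtain ⟨w⟩ := h5 x y
    cases w with
    | nil => exact hxy rfl
    | cons hadj w => exact h6.ne_of_adj hadj (Subsingleton.elim _ _)
  exact Finite.one_lt_card

theorem Covered.iterate {X : Σ V : Type, SimpleGraph V} (h : Covered X) (n : ℕ) :
    2 ≤ Nat.card (Clq.K^[n] X).1 := by
  have : Covered (Clq.K^[n] X) := by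
    induction n with
    | zero => exact h
    | succ n ih =>
      rw [Function.iterate_succ_apply']
      exact ih.K
  exact this.two_le

end Pool.Agent.Q291.Clq
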