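import Pool.Agent.Q291.Clq.Hemi

/-!
# The cube covers the hemicube

The comparability graph of the face poset of the cube (eight vertices, twelve edges, six squares) is
a connected triangular double cover of the comparability graph of the hemicube.
-/

set_option autoImplicit false
set_option maxRecDepth 100000

namespace Pool.Agent.Q291.Clq

/-- The comparability graph of an ordered set. -/
def compGraph (P : Type) [PartialOrder P] : SimpleGraph P where
  Adj x y := x < y ∨ y < x
  symm := ⟨fun _ _ h => h.symm⟩
  loopless := ⟨fun x h => by simp at h⟩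

/-- The order relation of the face poset of the cube. -/
def le26 (a b : Fin 26) : Bool := Nat.testBit
  (156764267109019817008767373822558659748208777138961078756955644973637401680072261237472827711192612880916570411854652125864627932812523316890576841970086840543027422110341311649850268408792593865969537609
    / 67108864 ^ (b : ℕ)) a

/-- The projection to the hemicube. -/
def pr (a : Fin 26) : Fin 13 :=
  ⟨119530612566579074191821458346 / 16 ^ (a : ℕ) % 16 % 13, Nat.mod_lt _ (by decide)⟩

/-- A neighbour which is nearer to the vertex `0`. -/
def par (a : Fin 26) : Fin 26 :=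
  ⟨213676023765658883831464300601722014848 / 32 ^ (a : ℕ) % 32 % 26, Nat.mod_lt _ (by decide)⟩

/-- adjacency in the comparability graph of the cube -/
def adj26 (a b : Fin 26) : Bool := (a != b) && (le26 a b || le26 b a)

/-- adjacency in the comparability graph of the hemicube -/
def adj13 (a b : Fin 13) : Bool := (a != b) && (le13 a b || le13 b a)

lemma adj13_iff : ∀ a b : Fin 13,
    ((le13 a b = true ∧ ¬ le13 b a = true) ∨ (le13 b a = true ∧ ¬ le13 a b = true)) ↔
      adj13 a b = true := by
  decide +kernel

lemma compGraph_adj (a b : Fin 13) : (compGraph HC).Adj a b ↔ adj13 a b = true := by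
  have h1 : (compGraph HC).Adj a b ↔
      ((le13 a b = true ∧ ¬ le13 b a = true) ∨ (le13 b a = true ∧ ¬ le13 a b = true)) := Iff.rfl
  rw [h1]
  exact adj13_iff a b

lemma adj26_symm : ∀ a b, adj26 a b = true → adj26 b a = true := by decide +kernel
lemma adj26_irrefl : ∀ a, ¬ adj26 a a = true := by decide +kernel

/-- The comparability graph of the face poset of the cube. -/
def H26 : SimpleGraph (Fin 26) where
  Adj a b := adj26 a b = true
  symm := ⟨adj26_symm⟩
  loopless := ⟨adj26_irrefl⟩

lemma H26_adj {a b : Fin 26} : H26.Adj a b ↔ adj26 a b = true := Iff.rfl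

lemma c_adj : ∀ x y, adj26 x y = true → adj13 (pr x) (pr y) = true := by decide +kernel
lemma c_lift : ∀ x v, adj13 (pr x) v = true → ∃ y, adj26 x y = true ∧ pr y = v := by
  decide +kernel
lemma c_inj : ∀ x y, adj26 x y = true → ∀ z, adj26 x z = true → pr y = pr z → y = z := by
  decide +kernel
lemma c_tri : ∀ x y, adj26 x y = true → ∀ z, adj26 x z = true → adj13 (pr y) (pr z) = true →
    adj26 y z = true := by
  decide +kernel
lemma c_two : ∀ v : Fin 13, ∃ x y : Fin 26, x ≠ y ∧ pr x = v ∧ pr y = v := by decide +kernel

/-- the projection as a map onto the hemicube -/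
def prH (a : Fin 26) : HC := pr a

lemma cover : TriCover H26 (compGraph HC) prH where
  adj x y h := (compGraph_adj _ _).mpr (c_adj x y h)
  lift x v h := c_lift x v ((compGraph_adj _ _).mp h)
  inj x y z h1 h2 h3 := c_inj x y h1 z h2 h3
  tri x y z h1 h2 h3 := c_tri x y h1 z h2 ((compGraph_adj _ _).mp h3)
  two v := c_two v

lemma par_adj : ∀ a : Fin 26, a = 0 ∨ adj26 a (par a) = true := by decide +kernel
lemma par_iter : ∀ a : Fin 26, par (par (par (par a))) = 0 := by decide +kernel

lemma reach_par (a : Fin 26) : H26.Reachable a (par a) := by
  rcases par_adj a with h | h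
  · subst h
    have : par 0 = 0 := by decide +kernel
    rw [this]
  · exact SimpleGraph.Adj.reachable (show H26.Adj a (par a) from h)

lemma H26_preconnected : H26.Preconnected := by
  have key : ∀ a : Fin 26, H26.Reachable a 0 := by
    intro a
    have h := ((reach_par a).trans (reach_par _)).trans ((reach_par _).trans (reach_par _))
    rwa [par_iter] at h
  intro a b
  exact (key a).trans (key b).symm

lemma covered : Covered ⟨HC, compGraph HC⟩ := by
  refine ⟨?_, ⟨(0 : Fin 13)⟩, Fin 26, H26, prH, inferInstance, inferInstance,
    H26_preconnected, cover⟩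
  show Finite HC
  infer_instance

theorem main (n : ℕ) : 2 ≤ Nat.card (Clq.K^[n] ⟨HC, compGraph HC⟩).1 := covered.iterate n

end Pool.Agent.Q291.Clq
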