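import Pool.Agent.Q291.Clq.Cover
import Mathlib.Data.Fintype.Basic
import Mathlib.Data.Fintype.Fin
import Mathlib.Order.Fin.Basic
import Mathlib.Tactic

/-!
# The thirteen point model of the projective plane

`HC` is the face poset of the hemicube, the cell decomposition of the projective plane with four
vertices, six edges and three quadrilaterals.  The points `0, 1, 2, 3` are the vertices, `4, ..., 9`
the edges and `10, 11, 12` the quadrilaterals.
-/

set_option autoImplicit false
set_option maxRecDepth 100000

namespace Pool.Agent.Q291.Clq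

/-- The lower sets, as bit masks. -/
def dn (x : ℕ) : ℕ :=
  463236778845247987324923473055767976096518941720577 / 8192 ^ x % 8192

/-- The upper sets, as bit masks. -/
def up (x : ℕ) : ℕ :=
  374167256514697064839313695008541588287384473328977 / 8192 ^ x % 8192

/-- The order relation of the hemicube. -/
def le13 (a b : Fin 13) : Bool := Nat.testBit (dn b) a

/-- The face poset of the hemicube. -/
def HC : Type := Fin 13

instance : Fintype HC := inferInstanceAs (Fintype (Fin 13))
instance : DecidableEq HC := inferInstanceAs (DecidableEq (Fin 13))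

lemma le13_refl : ∀ a, le13 a a = true := by decide +kernel
lemma le13_trans : ∀ a b c, le13 a b = true → le13 b c = true → le13 a c = true := by
  decide +kernel
lemma le13_antisymm : ∀ a b, le13 a b = true → le13 b a = true → a = b := by decide +kernel
lemma le13_up : ∀ a b, le13 a b = true → Nat.testBit (up a) b = true := by decide +kernel

instance : PartialOrder HC where
  le a b := le13 a b = true
  le_refl := le13_refl
  le_trans := le13_trans
  le_antisymm := le13_antisymm

/-- all bits but one -/
def mk (e : ℕ) : ℕ := 8191 - 2 ^ e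

lemma mk_bit : ∀ z e : Fin 13, z ≠ e → Nat.testBit (mk e) z = true := by decide +kernel

/-- candidates for the value of `f` at the edge `e` -/
def cand (a b y z e : ℕ) : ℕ := up a &&& up b &&& dn y &&& dn z &&& mk e

lemma cand_ne {a b y z e w : Fin 13} (h1 : le13 a w = true) (h2 : le13 b w = true)
    (h3 : le13 w y = true) (h4 : le13 w z = true) (h5 : w ≠ e) : cand a b y z e ≠ 0 := by
  intro h
  have h6 : Nat.testBit (cand a b y z e) w = true := by
    unfold cand
    rw [Nat.testBit_and, Nat.testBit_and, Nat.testBit_and, Nat.testBit_and]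
    have e1 := le13_up a w h1
    have e2 := le13_up b w h2
    have e3 : Nat.testBit (dn y) w = true := h3
    have e4 : Nat.testBit (dn z) w = true := h4
    rw [e1, e2, e3, e4, mk_bit w e h5]
    rfl
  rw [h] at h6
  simp at h6

/-- `v` is a possible value of `f i` -/
def ok (v i y0 y1 y2 : Fin 13) : Bool := (v != i) && le13 v y0 && le13 v y1 && le13 v y2

lemma ok_mk {v i y0 y1 y2 : Fin 13} (h : v ≠ i) (h0 : le13 v y0 = true) (h1 : le13 v y1 = true)
    (h2 : le13 v y2 = true) : ok v i y0 y1 y2 = true := by
  unfold ok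
  rw [h0, h1, h2]
  simpa using h

lemma chk : ∀ y0 y1 y2 : Fin 13, y0 ≠ 10 → y1 ≠ 11 → y2 ≠ 12 →
    ∀ v0 : Fin 13, ok v0 0 y0 y1 y2 = true → ∀ v1 : Fin 13, ok v1 1 y0 y1 y2 = true →
    ∀ v2 : Fin 13, ok v2 2 y0 y1 y2 = true → ∀ v3 : Fin 13, ok v3 3 y0 y1 y2 = true →
      cand v0 v3 y0 y1 4 = 0 ∨ cand v1 v2 y0 y1 5 = 0 ∨ cand v0 v2 y0 y2 6 = 0 ∨
      cand v1 v3 y0 y2 7 = 0 ∨ cand v0 v1 y1 y2 8 = 0 ∨ cand v2 v3 y1 y2 9 = 0 := by
  decide +kernel

/-- The hemicube has the fixed point property. -/
theorem fpp (f : HC → HC) (hf : Monotone f) : ∃ x, f x = x := by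
  by_contra hne
  push Not at hne
  have hm : ∀ a b : Fin 13, le13 a b = true → le13 (f a) (f b) = true := fun a b h => hf h
  have L : ∀ a b : Fin 13, le13 a b = true → le13 (f a) (f b) = true := hm
  rcases chk (f (10 : Fin 13)) (f (11 : Fin 13)) (f (12 : Fin 13)) (hne _) (hne _) (hne _)
    (f (0 : Fin 13)) (ok_mk (hne _) (L _ _ (by decide +kernel)) (L _ _ (by decide +kernel))
      (L _ _ (by decide +kernel)))
    (f (1 : Fin 13)) (ok_mk (hne _) (L _ _ (by decide +kernel)) (L _ _ (by decide +kernel))
      (L _ _ (by decide +kernel)))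
    (f (2 : Fin 13)) (ok_mk (hne _) (L _ _ (by decide +kernel)) (L _ _ (by decide +kernel))
      (L _ _ (by decide +kernel)))
    (f (3 : Fin 13)) (ok_mk (hne _) (L _ _ (by decide +kernel)) (L _ _ (by decide +kernel))
      (L _ _ (by decide +kernel))) with h | h | h | h | h | h
  · exact cand_ne (w := f (4 : Fin 13)) (e := 4) (L _ _ (by decide +kernel))
      (L _ _ (by decide +kernel)) (L _ _ (by decide +kernel)) (L _ _ (by decide +kernel))
      (hne _) h
  · exact cand_ne (w := f (5 : Fin 13)) (e := 5) (L _ _ (by decide +kernel))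
      (L _ _ (by decide +kernel)) (L _ _ (by decide +kernel)) (L _ _ (by decide +kernel))
      (hne _) h
  · exact cand_ne (w := f (6 : Fin 13)) (e := 6) (L _ _ (by decide +kernel))
      (L _ _ (by decide +kernel)) (L _ _ (by decide +kernel)) (L _ _ (by decide +kernel))
      (hne _) h
  · exact cand_ne (w := f (7 : Fin 13)) (e := 7) (L _ _ (by decide +kernel))
      (L _ _ (by decide +kernel)) (L _ _ (by decide +kernel)) (L _ _ (by decide +kernel))
      (hne _) h
  · exact cand_ne (w := f (8 : Fin 13)) (e := 8) (L _ _ (by decide +kernel))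
      (L _ _ (by decide +kernel)) (L _ _ (by decide +kernel)) (L _ _ (by decide +kernel))
      (hne _) h
  · exact cand_ne (w := f (9 : Fin 13)) (e := 9) (L _ _ (by decide +kernel))
      (L _ _ (by decide +kernel)) (L _ _ (by decide +kernel)) (L _ _ (by decide +kernel))
      (hne _) h

end Pool.Agent.Q291.Clq
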